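import Pool.Agent.W181.RT.Props

set_option autoImplicit false

namespace Pool.Agent.W481.RT

open Pool.Agent.W181.RT Module

/-! ### linear algebra -/

theorem la_fd {W R : Type} [AddCommGroup W] [Module ℚ W] [Module.Finite ℚ W] [AddCommGroup R]
    [Module ℚ R] [Module.Finite ℚ R] (f g : W →ₗ[ℚ] R) (U V : Submodule ℚ R)
    (hU : U ≤ LinearMap.range f) (h : ∀ w, f w ∈ U → g w ∈ V) :
    finrank ℚ (LinearMap.range g) + finrank ℚ U ≤ finrank ℚ (LinearMap.range f) + finrank ℚ V := by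
  set K := U.comap f with hK
  have e1 := LinearMap.finrank_range_add_finrank_ker f
  have e2 := LinearMap.finrank_range_add_finrank_ker g
  have e3 := LinearMap.finrank_range_add_finrank_ker (f.domRestrict K)
  have e4 := LinearMap.finrank_range_add_finrank_ker (g.domRestrict K)
  have h1 : LinearMap.range (f.domRestrict K) = U := by
    rw [LinearMap.range_domRestrict, hK, Submodule.map_comap_eq]
    exact inf_eq_right.mpr hU
  have h2 : finrank ℚ (LinearMap.ker (f.domRestrict K)) = finrank ℚ (LinearMap.ker f) := by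
    rw [LinearMap.ker_domRestrict]
    refine (Submodule.comapSubtypeEquivOfLe ?_).finrank_eq
    intro x hx
    rw [hK, Submodule.mem_comap, LinearMap.mem_ker.mp hx]
    exact U.zero_mem
  have h3 : finrank ℚ (LinearMap.range (g.domRestrict K)) ≤ finrank ℚ V := by
    apply Submodule.finrank_mono
    rintro _ ⟨⟨w, hw⟩, rfl⟩
    exact h w hw
  have h4 : finrank ℚ (LinearMap.ker (g.domRestrict K)) ≤ finrank ℚ (LinearMap.ker g) := by
    rw [LinearMap.ker_domRestrict]
    have h5 : finrank ℚ (Submodule.map K.subtype (Submodule.comap K.subtype (LinearMap.ker g))) =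
        finrank ℚ (Submodule.comap K.subtype (LinearMap.ker g)) :=
      Submodule.finrank_map_subtype_eq K _
    rw [← h5]
    exact Submodule.finrank_mono (Submodule.map_comap_le _ _)
  rw [h1, h2] at e3
  omega

theorem la {W R : Type} [AddCommGroup W] [Module ℚ W] [AddCommGroup R]
    [Module ℚ R] [Module.Finite ℚ R] (f g : W →ₗ[ℚ] R) (U V : Submodule ℚ R)
    (hU : U ≤ LinearMap.range f) (h : ∀ w, f w ∈ U → g w ∈ V) :
    finrank ℚ (LinearMap.range g) + finrank ℚ U ≤ finrank ℚ (LinearMap.range f) + finrank ℚ V := by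
  set Z := LinearMap.range (f.prod g) with hZ
  have hf : LinearMap.range ((LinearMap.fst ℚ R R).domRestrict Z) = LinearMap.range f := by
    ext x
    constructor
    · rintro ⟨⟨_, ⟨w, rfl⟩⟩, rfl⟩
      exact ⟨w, rfl⟩
    · rintro ⟨w, rfl⟩
      exact ⟨⟨(f.prod g) w, ⟨w, rfl⟩⟩, rfl⟩
  have hg : LinearMap.range ((LinearMap.snd ℚ R R).domRestrict Z) = LinearMap.range g := by
    ext x
    constructor
    · rintro ⟨⟨_, ⟨w, rfl⟩⟩, rfl⟩
      exact ⟨w, rfl⟩
    · rintro ⟨w, rfl⟩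
      exact ⟨⟨(f.prod g) w, ⟨w, rfl⟩⟩, rfl⟩
  have := la_fd ((LinearMap.fst ℚ R R).domRestrict Z) ((LinearMap.snd ℚ R R).domRestrict Z) U V
    (by rw [hf]; exact hU) (by
      rintro ⟨_, ⟨w, rfl⟩⟩ hw
      exact h w hw)
  rwa [hf, hg] at this

/-! ### the grading -/

theorem RD_one (ℓ k : ℕ) : (1 : RR ℓ k) ∈ RD ℓ k 0 := by
  rw [mem_RD, map_one, pow_zero, one_smul]

theorem RD_pow (ℓ k D n : ℕ) (x : RR ℓ k) (hx : x ∈ RD ℓ k D) : x ^ n ∈ RD ℓ k (n * D) := by
  rw [mem_RD] at *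
  rw [map_pow, hx, smul_pow, ← pow_mul, mul_comm]

theorem RD_prod {ι : Type} (ℓ k : ℕ) (s : Finset ι) (d : ι → ℕ) (x : ι → RR ℓ k)
    (hx : ∀ i ∈ s, x i ∈ RD ℓ k (d i)) : ∏ i ∈ s, x i ∈ RD ℓ k (∑ i ∈ s, d i) := by
  classical
  induction s using Finset.induction_on with
  | empty => simpa using RD_one ℓ k
  | insert a s ha ih =>
    rw [Finset.prod_insert ha, Finset.sum_insert ha]
    exact RD_mul ℓ k _ _ _ _ (hx a (Finset.mem_insert_self a s))
      (ih fun i hi => hx i (Finset.mem_insert_of_mem hi))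

theorem RD_indep (ℓ k : ℕ) : iSupIndep (RD ℓ k) := by
  have h1 := Module.End.eigenspaces_iSupIndep (sig ℓ k).toLinearMap
  have hinj : Function.Injective (fun D : ℕ => (2 : ℚ) ^ D) := by
    intro a b hab
    exact pow_right_injective₀ (by norm_num) (by norm_num) hab
  have h2 := h1.comp hinj
  have h3 : RD ℓ k = Module.End.eigenspace (sig ℓ k).toLinearMap ∘ fun D : ℕ => (2 : ℚ) ^ D := by
    funext D
    ext x
    rw [Function.comp_apply, Module.End.mem_eigenspace_iff, mem_RD]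
    rfl
  rw [h3]
  exact h2

/-- the weights of the variables -/
def wt (m : ℕ) : Fin m → ℕ := fun i => (i : ℕ) + 1

/-- evaluation at the power sums -/
noncomputable def ph (ℓ k m : ℕ) : MvPolynomial (Fin m) ℚ →ₐ[ℚ] RR ℓ k :=
  MvPolynomial.aeval (fun i : Fin m => qq ℓ k (i : ℕ))

theorem mono_mem (ℓ k m : ℕ) (s : Fin m →₀ ℕ) (c : ℚ) :
    ph ℓ k m (MvPolynomial.monomial s c) ∈ RD ℓ k (Finsupp.weight (wt m) s) := by
  have h1 : ph ℓ k m (MvPolynomial.monomial s c) = c • ∏ i : Fin m, qq ℓ k (i : ℕ) ^ s i := by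
    unfold ph
    rw [MvPolynomial.aeval_monomial, Finsupp.prod_fintype _ _ (fun i => pow_zero _)]
    exact (Algebra.smul_def c _).symm
  have h2 : Finsupp.weight (wt m) s = ∑ i : Fin m, s i * ((i : ℕ) + 1) := by
    rw [Finsupp.weight_apply, Finsupp.sum_fintype _ _ (fun i => by simp)]
    rfl
  rw [h1, h2]
  refine (RD ℓ k _).smul_mem _ ?_
  exact RD_prod ℓ k _ _ _ fun i _ => RD_pow ℓ k _ _ _ (qq_mem ℓ k i)

theorem hom_mem (ℓ k m E : ℕ) (F : MvPolynomial (Fin m) ℚ)
    (hF : MvPolynomial.IsWeightedHomogeneous (wt m) F E) : ph ℓ k m F ∈ RD ℓ k E := by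
  rw [F.as_sum, map_sum]
  refine Submodule.sum_mem _ fun s hs => ?_
  have h1 := hF (MvPolynomial.mem_support_iff.mp hs)
  rw [← h1]
  exact mono_mem ℓ k m s _

theorem mem_Rm (ℓ k m : ℕ) (x : RR ℓ k) : x ∈ Rm ℓ k m ↔ ∃ F, ph ℓ k m F = x := by
  unfold Rm ph
  rw [Subalgebra.mem_toSubmodule]
  have h1 : {x : RR ℓ k | ∃ a : ℕ, a < m ∧ x = qq ℓ k a} =
      Set.range (fun i : Fin m => qq ℓ k (i : ℕ)) := by
    ext y
    constructor
    · rintro ⟨a, ha, rfl⟩
      exact ⟨⟨a, ha⟩, rfl⟩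
    · rintro ⟨i, rfl⟩
      exact ⟨i, i.2, rfl⟩
  rw [h1, Algebra.adjoin_range_eq_range_aeval]
  exact AlgHom.mem_range _

theorem lift_hom (ℓ k m E : ℕ) (x : RR ℓ k) (hx : x ∈ Rm ℓ k m) (hE : x ∈ RD ℓ k E) :
    ∃ F, MvPolynomial.IsWeightedHomogeneous (wt m) F E ∧ ph ℓ k m F = x := by
  classical
  obtain ⟨F, rfl⟩ := (mem_Rm ℓ k m x).mp hx
  set F1 := ∑ s ∈ F.support.filter (fun s => Finsupp.weight (wt m) s = E),
    MvPolynomial.monomial s (MvPolynomial.coeff s F) with hF1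
  set F2 := ∑ s ∈ F.support.filter (fun s => ¬ Finsupp.weight (wt m) s = E),
    MvPolynomial.monomial s (MvPolynomial.coeff s F) with hF2
  have hsum : F = F1 + F2 := by
    rw [hF1, hF2, Finset.sum_filter_add_sum_filter_not]
    exact F.as_sum
  have h1 : MvPolynomial.IsWeightedHomogeneous (wt m) F1 E := by
    rw [← MvPolynomial.mem_weightedHomogeneousSubmodule ℚ]
    refine Submodule.sum_mem _ fun s hs => ?_
    rw [MvPolynomial.mem_weightedHomogeneousSubmodule]
    exact MvPolynomial.isWeightedHomogeneous_monomial _ _ _ (Finset.mem_filter.mp hs).2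
  refine ⟨F1, h1, ?_⟩
  have h2 : ph ℓ k m F2 ∈ ⨆ D ≠ E, RD ℓ k D := by
    rw [hF2, map_sum]
    refine Submodule.sum_mem _ fun s hs => ?_
    exact Submodule.mem_iSup_of_mem _ (Submodule.mem_iSup_of_mem (Finset.mem_filter.mp hs).2
      (mono_mem ℓ k m s _))
  have h3 : ph ℓ k m F2 ∈ RD ℓ k E := by
    have : ph ℓ k m F2 = ph ℓ k m F - ph ℓ k m F1 := by
      rw [← map_sub]
      congr 1
      rw [hsum]
      ring
    rw [this]
    exact Submodule.sub_mem _ hE (hom_mem ℓ k m E F1 h1)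
  have h4 : ph ℓ k m F2 = 0 := by
    have := (RD_indep ℓ k E).le_bot ⟨h3, h2⟩
    simpa using this
  have h5 : ph ℓ k m F = ph ℓ k m F1 + ph ℓ k m F2 := by
    rw [← map_add]
    exact congrArg _ hsum
  rw [h5, h4, add_zero]

/-- the derivative with respect to the last variable is onto -/
theorem pderiv_onto (m D : ℕ) (F : MvPolynomial (Fin (m + 1)) ℚ)
    (hF : MvPolynomial.IsWeightedHomogeneous (wt (m + 1)) F D) :
    ∃ G, MvPolynomial.IsWeightedHomogeneous (wt (m + 1)) G (D + (m + 1)) ∧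
      MvPolynomial.pderiv (Fin.last m) G = F := by
  refine ⟨∑ s ∈ F.support, MvPolynomial.monomial (s + Finsupp.single (Fin.last m) 1)
    (MvPolynomial.coeff s F / (s (Fin.last m) + 1)), ?_, ?_⟩
  · rw [← MvPolynomial.mem_weightedHomogeneousSubmodule ℚ]
    refine Submodule.sum_mem _ fun s hs => ?_
    rw [MvPolynomial.mem_weightedHomogeneousSubmodule]
    refine MvPolynomial.isWeightedHomogeneous_monomial _ _ _ ?_
    rw [map_add, hF (MvPolynomial.mem_support_iff.mp hs), Finsupp.weight_single]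
    simp [wt]
  · conv_rhs => rw [F.as_sum]
    rw [map_sum]
    refine Finset.sum_congr rfl fun s _ => ?_
    rw [MvPolynomial.pderiv_monomial]
    congr 1
    · simp
    · have h1 : ((s + Finsupp.single (Fin.last m) 1 : Fin (m + 1) →₀ ℕ) (Fin.last m) : ℚ) =
          s (Fin.last m) + 1 := by
        simp
      rw [h1]
      have h2 : ((s (Fin.last m) : ℚ) + 1) ≠ 0 := by positivity
      field_simp

theorem chain (hL : S_LCR) (hFin : S_FIN) : S_CHAIN := by
  intro ℓ k m D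
  have := hFin ℓ k
  set E := D + (m + 1) with hE
  set W := MvPolynomial.weightedHomogeneousSubmodule ℚ (wt (m + 1)) E with hW
  let f : W →ₗ[ℚ] RR ℓ k := (ph ℓ k (m + 1)).toLinearMap ∘ₗ W.subtype
  let g : W →ₗ[ℚ] RR ℓ k := (ph ℓ k (m + 1)).toLinearMap ∘ₗ
    (MvPolynomial.pderiv (Fin.last m) :
      Derivation ℚ (MvPolynomial (Fin (m + 1)) ℚ) (MvPolynomial (Fin (m + 1)) ℚ)).toLinearMap ∘ₗ
      W.subtype
  have hf : ∀ w : W, f w = ph ℓ k (m + 1) w.1 := fun _ => rfl
  have hg : ∀ w : W, g w = ph ℓ k (m + 1) (MvPolynomial.pderiv (Fin.last m) w.1) := fun _ => rfl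
  have hRmle : Rm ℓ k m ≤ Rm ℓ k (m + 1) := by
    unfold Rm
    refine Subalgebra.toSubmodule.monotone (Algebra.adjoin_mono ?_)
    rintro x ⟨a, ha, rfl⟩
    exact ⟨a, by omega, rfl⟩
  have hrf : LinearMap.range f = Rm ℓ k (m + 1) ⊓ RD ℓ k E := by
    ext x
    constructor
    · rintro ⟨w, rfl⟩
      rw [hf]
      exact ⟨(mem_Rm _ _ _ _).mpr ⟨w.1, rfl⟩, hom_mem ℓ k _ _ _
        ((MvPolynomial.mem_weightedHomogeneousSubmodule ℚ _ _ _).mp w.2)⟩
    · rintro ⟨h1, h2⟩
      obtain ⟨F, hF, rfl⟩ := lift_hom ℓ k (m + 1) E x h1 h2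
      exact ⟨⟨F, (MvPolynomial.mem_weightedHomogeneousSubmodule ℚ _ _ _).mpr hF⟩, rfl⟩
  have hrg : LinearMap.range g = Rm ℓ k (m + 1) ⊓ RD ℓ k D := by
    ext x
    constructor
    · rintro ⟨w, rfl⟩
      rw [hg]
      refine ⟨(mem_Rm _ _ _ _).mpr ⟨_, rfl⟩, hom_mem ℓ k _ _ _ ?_⟩
      refine MvPolynomial.IsWeightedHomogeneous.pderiv
        ((MvPolynomial.mem_weightedHomogeneousSubmodule ℚ _ _ _).mp w.2) ?_
      simp [wt, hE]
    · rintro ⟨h1, h2⟩
      obtain ⟨F, hF, rfl⟩ := lift_hom ℓ k (m + 1) D x h1 h2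
      obtain ⟨G, hG, rfl⟩ := pderiv_onto m D F hF
      exact ⟨⟨G, (MvPolynomial.mem_weightedHomogeneousSubmodule ℚ _ _ _).mpr hG⟩, rfl⟩
  have key := la f g (Rm ℓ k m ⊓ RD ℓ k E) (AnnP ℓ k (m + 1) ⊓ RD ℓ k D)
    (by rw [hrf]; exact inf_le_inf_right _ hRmle) (by
      intro w hw
      refine ⟨?_, ?_⟩
      · intro z hz
        obtain ⟨G, hG⟩ := (mem_Rm _ _ _ _).mp hw.1
        have h1 : ph ℓ k (m + 1) (MvPolynomial.rename Fin.castSucc G) = ph ℓ k m G := by
          unfold ph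
          rw [MvPolynomial.aeval_rename]
          rfl
        have h2 : ph ℓ k (m + 1) (w.1 - MvPolynomial.rename Fin.castSucc G) = 0 := by
          rw [map_sub, h1, hG, hf, sub_self]
        have h3 := hL ℓ k (m + 1) _ h2 (Fin.last m) z hz
        have h4 : MvPolynomial.pderiv (Fin.last m) (MvPolynomial.rename Fin.castSucc G) = 0 := by
          classical
          apply MvPolynomial.pderiv_eq_zero_of_notMem_vars
          intro h5
          have h6 := MvPolynomial.vars_rename Fin.castSucc G h5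
          rw [Finset.mem_image] at h6
          obtain ⟨i, _, hi⟩ := h6
          exact absurd hi (Fin.castSucc_lt_last i).ne
        rw [map_sub, h4, sub_zero] at h3
        rw [hg]
        exact h3
      · have h7 : g w ∈ LinearMap.range g := ⟨w, rfl⟩
        rw [hrg] at h7
        exact h7.2)
  rw [hrf, hrg] at key
  omega

/-- the form asked for -/
theorem t_CHAIN (hL : S_LCR) (_ : S_DEC) (hFin : S_FIN) : S_CHAIN := chain hL hFin

end Pool.Agent.W481.RT

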